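import Pool.Agent.Q145.SZ.Stm

/-!
# Project SZ: counting in classes
-/

set_option autoImplicit false
set_option linter.unusedSectionVars false

namespace Pool.Agent.Q58.SZ

open Finset Filter Pool.Agent.Q145.SZ

lemma count_mod (a b : ℕ) (hab : a ≤ b) {r : ℕ} (hr : 0 < r) (v : ℕ) :
    |(((Ioc a b).filter fun x => x ≡ v [MOD r]).card : ℝ) - ((b : ℝ) - a) / r| ≤ 1 := by
  have h1 := Nat.Ioc_filter_modEq_card a b hr v
  have hr' : (0 : ℚ) < r := by exact_mod_cast hr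
  have hab' : (a : ℚ) ≤ b := by exact_mod_cast hab
  set u : ℚ := ((b : ℚ) - v) / r with hu
  set w : ℚ := ((a : ℚ) - v) / r with hw
  have hwu : w ≤ u := div_le_div_of_nonneg_right (by linarith) hr'.le
  have h2 : max (⌊u⌋ - ⌊w⌋) 0 = ⌊u⌋ - ⌊w⌋ := max_eq_left (by
    have := Int.floor_le_floor hwu
    omega)
  rw [h2] at h1
  have h3 : ((((Ioc a b).filter fun x => x ≡ v [MOD r]).card : ℚ)) = (⌊u⌋ : ℚ) - ⌊w⌋ := by
    have := congrArg (fun z : ℤ => (z : ℚ)) h1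
    push_cast at this
    exact this
  have h4 : |((((Ioc a b).filter fun x => x ≡ v [MOD r]).card : ℚ)) - ((b : ℚ) - a) / r| ≤ 1 := by
    rw [h3, abs_le]
    have a1 := Int.floor_le u
    have a2 := Int.lt_floor_add_one u
    have a3 := Int.floor_le w
    have a4 := Int.lt_floor_add_one w
    have a5 : ((b : ℚ) - a) / r = u - w := by
      rw [hu, hw, ← sub_div]
      congr 1
      ring
    rw [a5]
    constructor <;> linarith
  have h5 := (Rat.cast_le (K := ℝ)).2 h4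
  push_cast at h5
  exact h5

section

variable {W : ℕ} [NeZero W]

lemma cls_eq (X : ℕ) (β : ZMod W) :
    cls X β = (Ioc 0 X).filter fun x => x ≡ β.val [MOD W] := by
  unfold cls
  ext n
  simp only [Finset.mem_filter, Finset.mem_Icc, Finset.mem_Ioc]
  have : ((n : ZMod W) = β) ↔ n ≡ β.val [MOD W] := by
    conv_lhs => rw [← ZMod.natCast_zmod_val β]
    exact ZMod.natCast_eq_natCast_iff _ _ _
  rw [this]
  constructor
  · rintro ⟨⟨h1, h2⟩, h3⟩
    exact ⟨⟨by omega, h2⟩, h3⟩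
  · rintro ⟨⟨h1, h2⟩, h3⟩
    exact ⟨⟨by omega, h2⟩, h3⟩

lemma card_cls (X : ℕ) (β : ZMod W) : |((cls X β).card : ℝ) - (X : ℝ) / W| ≤ 1 := by
  have := count_mod 0 X (Nat.zero_le _) (Nat.pos_of_ne_zero (NeZero.ne W)) β.val
  rw [cls_eq]
  simpa using this

lemma card_cls_le (X : ℕ) (β : ZMod W) : ((cls X β).card : ℝ) ≤ (X : ℝ) / W + 1 := by
  have := (abs_le.1 (card_cls X β)).2
  linarith

lemma le_card_cls (X : ℕ) (β : ZMod W) : (X : ℝ) / W - 1 ≤ ((cls X β).card : ℝ) := by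
  have := (abs_le.1 (card_cls X β)).1
  linarith

lemma card_Sb {K : ℕ} (X : ℕ) (b : Fin K → ZMod W) :
    ((Sb X b).card : ℝ) = ∏ i, ((cls X (b i)).card : ℝ) := by
  unfold Sb
  rw [Fintype.card_piFinset]
  push_cast
  rfl

lemma card_Sb_le {K : ℕ} (X : ℕ) (b : Fin K → ZMod W) :
    ((Sb X b).card : ℝ) ≤ ((X : ℝ) / W + 1) ^ K := by
  rw [card_Sb]
  calc ∏ i, ((cls X (b i)).card : ℝ) ≤ ∏ _i : Fin K, ((X : ℝ) / W + 1) :=
        Finset.prod_le_prod (fun _ _ => Nat.cast_nonneg _) fun i _ => card_cls_le X (b i)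
    _ = ((X : ℝ) / W + 1) ^ K := by simp

lemma le_card_Sb {K : ℕ} (X : ℕ) (hX : W ≤ X) (b : Fin K → ZMod W) :
    ((X : ℝ) / W - 1) ^ K ≤ ((Sb X b).card : ℝ) := by
  have hW : (0 : ℝ) < W := by exact_mod_cast Nat.pos_of_ne_zero (NeZero.ne W)
  have h1 : (1 : ℝ) ≤ (X : ℝ) / W := by
    rw [le_div_iff₀ hW]
    exact_mod_cast (by simpa using hX)
  rw [card_Sb]
  calc ((X : ℝ) / W - 1) ^ K = ∏ _i : Fin K, ((X : ℝ) / W - 1) := by simp
    _ ≤ ∏ i, ((cls X (b i)).card : ℝ) :=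
      Finset.prod_le_prod (fun _ _ => by linarith) fun i _ => le_card_cls X (b i)

lemma mem_Sb {K : ℕ} {X : ℕ} {b : Fin K → ZMod W} {s : Fin K → ℕ} :
    s ∈ Sb X b ↔ (∀ i, 1 ≤ s i ∧ s i ≤ X) ∧ (fun i => (s i : ZMod W)) = b := by
  unfold Sb cls
  rw [Fintype.mem_piFinset]
  simp only [Finset.mem_filter, Finset.mem_Icc]
  constructor
  · intro h
    exact ⟨fun i => (h i).1, funext fun i => (h i).2⟩
  · rintro ⟨h1, h2⟩ i
    exact ⟨h1 i, congrFun h2 i⟩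

end

end Pool.Agent.Q58.SZ
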