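import Pool.Agent.Q145.SZ.Stm

/-!
# Project SZ, job MBS: the mean value and the singular series
-/

set_option autoImplicit false

namespace Pool.Agent.Q58.SZ

open Finset Filter Pool.Agent.Q145.SZ

/-- the number of classes `x` with all `x + s_i` units -/
noncomputable def cG {K : ℕ} (s : Fin K → ℕ) (M : ℕ) : ℕ :=
  Nat.card {x : ZMod M // ∀ i, IsUnit (x + (s i : ZMod M))}

lemma card_Gs {K : ℕ} (s : Fin K → ℕ) (M : ℕ) [NeZero M] :
    (Gs (fun i => (s i : ZMod M))).card = cG s M := by
  classical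
  unfold cG
  rw [Nat.subtype_card]
  intro x
  unfold Gs
  simp

lemma cG_mul {K : ℕ} (s : Fin K → ℕ) {M N : ℕ} (h : M.Coprime N) :
    cG s (M * N) = cG s M * cG s N := by
  unfold cG
  rw [← Nat.card_prod]
  refine Nat.card_congr ?_
  refine (Equiv.subtypeEquiv (q := fun c : ZMod M × ZMod N =>
    (∀ i, IsUnit (c.1 + (s i : ZMod M))) ∧ ∀ i, IsUnit (c.2 + (s i : ZMod N)))
    (ZMod.chineseRemainder h).toEquiv ?_).trans
      (Equiv.subtypeProdEquivProd (p := fun a : ZMod M => ∀ i, IsUnit (a + (s i : ZMod M)))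
        (q := fun b : ZMod N => ∀ i, IsUnit (b + (s i : ZMod N))))
  intro x
  rw [← forall_and]
  refine forall_congr' fun i => ?_
  have h1 : IsUnit (x + (s i : ZMod (M * N))) ↔
      IsUnit ((ZMod.chineseRemainder h) (x + (s i : ZMod (M * N)))) :=
    (MulEquiv.isUnit_map (ZMod.chineseRemainder h)).symm
  rw [h1, map_add, map_natCast, Prod.isUnit_iff]
  rfl

lemma cG_one {K : ℕ} (s : Fin K → ℕ) : cG s 1 = 1 := by
  unfold cG
  have : Unique {x : ZMod 1 // ∀ i, IsUnit (x + (s i : ZMod 1))} :=
    { default := ⟨0, fun i => by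
        have : (0 : ZMod 1) + (s i : ZMod 1) = 1 := Subsingleton.elim _ _
        rw [this]
        exact isUnit_one⟩
      uniq := fun a => Subtype.ext (Subsingleton.elim _ _) }
  exact Nat.card_unique

lemma nu_le_card {K : ℕ} (s : Fin K → ℕ) (p : ℕ) : nu s p ≤ K := by
  unfold nu
  refine Finset.card_image_le.trans ?_
  simp

lemma nu_le {K : ℕ} (s : Fin K → ℕ) {p : ℕ} (hp : 0 < p) : nu s p ≤ p := by
  unfold nu
  refine (Finset.card_le_card (t := range p) ?_).trans (by simp)
  intro x hx
  rw [mem_image] at hx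
  obtain ⟨i, _, rfl⟩ := hx
  rw [mem_range]
  exact Nat.mod_lt _ hp

lemma cG_prime {K : ℕ} (s : Fin K → ℕ) {p : ℕ} (hp : p.Prime) : cG s p = p - nu s p := by
  classical
  have : Fact p.Prime := ⟨hp⟩
  unfold cG
  rw [Nat.subtype_card (univ \ (univ.image fun i => -(s i : ZMod p)))]
  · rw [Finset.card_univ_sdiff, ZMod.card]
    congr 1
    unfold nu
    rw [← Finset.card_image_of_injective (univ.image fun i => s i % p) (f := fun a : ℕ => a)
      (fun a b h => h)]
    have e1 : (univ.image fun i => -(s i : ZMod p)) =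
        ((univ.image fun i => s i % p).image fun a : ℕ => -(a : ZMod p)) := by
      rw [Finset.image_image]
      refine Finset.image_congr fun i _ => ?_
      simp
    rw [e1, Finset.card_image_of_injOn, Finset.card_image_of_injective _ (fun a b h => h)]
    intro a ha b hb hab
    simp only [coe_image, coe_univ, Set.image_univ, Set.mem_range] at ha hb
    obtain ⟨i, rfl⟩ := ha
    obtain ⟨j, rfl⟩ := hb
    have h2 : ((s i % p : ℕ) : ZMod p) = ((s j % p : ℕ) : ZMod p) := neg_injective hab
    rw [ZMod.natCast_eq_natCast_iff'] at h2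
    simpa using h2
  · intro x
    simp only [Finset.mem_sdiff, Finset.mem_univ, true_and, Finset.mem_image, not_exists,
      isUnit_iff_ne_zero]
    refine forall_congr' fun i => ?_
    rw [ne_eq, not_iff_not, neg_eq_iff_add_eq_zero, add_comm]

lemma filter_succ (z : ℕ) : (Icc 1 (z + 1)).filter Nat.Prime =
    if (z + 1).Prime then insert (z + 1) ((Icc 1 z).filter Nat.Prime) else
      (Icc 1 z).filter Nat.Prime := by
  have : Icc 1 (z + 1) = insert (z + 1) (Icc 1 z) := by
    ext n
    simp only [mem_Icc, mem_insert]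
    omega
  rw [this, Finset.filter_insert]

lemma notMem_filter (z : ℕ) : z + 1 ∉ (Icc 1 z).filter Nat.Prime := by
  simp

lemma PW_succ_prime {z : ℕ} (h : (z + 1).Prime) : PW (z + 1) = PW z * (z + 1) := by
  unfold PW
  rw [filter_succ, if_pos h, Finset.prod_insert (notMem_filter z), mul_comm]

lemma PW_succ_not {z : ℕ} (h : ¬ (z + 1).Prime) : PW (z + 1) = PW z := by
  unfold PW
  rw [filter_succ, if_neg h]

lemma PW_zero : PW 0 = 1 := by
  unfold PW
  simp

lemma coprime_PW {z : ℕ} (h : (z + 1).Prime) : (PW z).Coprime (z + 1) := by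
  unfold PW
  refine Nat.Coprime.prod_left fun p hp => ?_
  rw [mem_filter, mem_Icc] at hp
  rw [Nat.coprime_primes hp.2 h]
  omega

lemma cG_PW {K : ℕ} (s : Fin K → ℕ) (z : ℕ) :
    cG s (PW z) = ∏ p ∈ (Icc 1 z).filter Nat.Prime, (p - nu s p) := by
  induction z with
  | zero =>
    rw [PW_zero, cG_one]
    simp
  | succ z ih =>
    by_cases h : (z + 1).Prime
    · rw [PW_succ_prime h, cG_mul s (coprime_PW h), ih, cG_prime s h, filter_succ, if_pos h,
        Finset.prod_insert (notMem_filter z), mul_comm]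
    · rw [PW_succ_not h, ih, filter_succ, if_neg h]

lemma vv_mul {M N : ℕ} (h : M.Coprime N) : vv (M * N) = vv M * vv N := by
  unfold vv
  rw [Nat.totient_mul h]
  push_cast
  rw [mul_div_mul_comm]

lemma main_eq {K : ℕ} (s : Fin K → ℕ) (z : ℕ) :
    (cG s (PW z) : ℝ) / (PW z : ℝ) * vv (PW z) ^ K = singP s z := by
  induction z with
  | zero =>
    rw [PW_zero, cG_one]
    simp [vv, singP]
  | succ z ih =>
    by_cases h : (z + 1).Prime
    · have e1 : singP s (z + 1) = loc s (z + 1) * singP s z := by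
        unfold singP
        rw [filter_succ, if_pos h, Finset.prod_insert (notMem_filter z)]
      rw [e1, ← ih, PW_succ_prime h, cG_mul s (coprime_PW h), vv_mul (coprime_PW h), mul_pow,
        cG_prime s h]
      have hp1 : (1 : ℝ) < ((z + 1 : ℕ) : ℝ) := by exact_mod_cast h.one_lt
      have hpW : ((PW z : ℕ) : ℝ) ≠ 0 := by
        exact_mod_cast (NeZero.ne (PW z))
      have e2 : vv (z + 1) = (1 - 1 / ((z + 1 : ℕ) : ℝ))⁻¹ := by
        unfold vv
        rw [Nat.totient_prime h, Nat.cast_sub h.one_lt.le, Nat.cast_one]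
        have h1 : ((z + 1 : ℕ) : ℝ) - 1 ≠ 0 := by linarith
        have h2 : ((z + 1 : ℕ) : ℝ) ≠ 0 := by linarith
        field_simp
      have e3 : ((z + 1 - nu s (z + 1) : ℕ) : ℝ) = ((z + 1 : ℕ) : ℝ) - nu s (z + 1) := by
        rw [Nat.cast_sub (nu_le s (Nat.succ_pos z))]
      rw [e2, Nat.cast_mul, Nat.cast_mul, e3]
      unfold loc
      have h2 : ((z + 1 : ℕ) : ℝ) ≠ 0 := by linarith
      have h3 : 1 - 1 / ((z + 1 : ℕ) : ℝ) ≠ 0 := by
        have : 1 / ((z + 1 : ℕ) : ℝ) < 1 := by
          rw [div_lt_one (by linarith)]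
          exact hp1
        linarith
      rw [inv_pow]
      field_simp
    · have e1 : singP s (z + 1) = singP s z := by
        unfold singP
        rw [filter_succ, if_neg h]
      rw [e1, PW_succ_not h, ih]

theorem t_MBS : S_MBS := by
  classical
  intro z X K s
  constructor
  · unfold Mb
    rw [card_Gs, ← main_eq]
    ring
  · intro hK
    rw [← Finset.card_pos, card_Gs, cG_PW]
    rw [Nat.pos_iff_ne_zero, Finset.prod_ne_zero_iff]
    constructor
    · intro h p hp
      rw [mem_filter] at hp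
      have := h p hp.2
      omega
    · intro h p hp
      by_cases hz : p ≤ z
      · have := h p (mem_filter.2 ⟨mem_Icc.2 ⟨hp.one_lt.le, hz⟩, hp⟩)
        omega
      · have := nu_le_card s p
        omega

end Pool.Agent.Q58.SZ
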