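import Pool.Agent.Q145.SZ.Stm

/-!
# Project SZ, job LAW2: replacement of the coordinates
-/

set_option autoImplicit false

namespace Pool.Agent.Q58.SZ

open Finset Filter Pool.Agent.Q145.SZ

section

variable {W : ℕ} [NeZero W]

lemma mem_Gs {K : ℕ} {b : Fin K → ZMod W} {x : ZMod W} : x ∈ Gs b ↔ ∀ i, IsUnit (x + b i) := by
  classical
  unfold Gs
  simp

lemma mem_Us {n m β : ZMod W} : β ∈ Us n m ↔ IsUnit (n + β) ∧ IsUnit (m + β) := by
  classical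
  unfold Us
  simp

lemma mem_Gs_insertNth {k : ℕ} (j : Fin (k + 1)) (β : ZMod W) (c : Fin k → ZMod W) (x : ZMod W) :
    x ∈ Gs (Fin.insertNth j β c : Fin (k + 1) → ZMod W) ↔ IsUnit (x + β) ∧ x ∈ Gs c := by
  rw [mem_Gs, mem_Gs, Fin.forall_iff_succAbove j]
  simp

lemma mem_Gs_cons {k : ℕ} (β : ZMod W) (c : Fin k → ZMod W) (x : ZMod W) :
    x ∈ Gs (Fin.cons β c : Fin (k + 1) → ZMod W) ↔ IsUnit (x + β) ∧ x ∈ Gs c := by
  rw [mem_Gs, mem_Gs, Fin.forall_fin_succ]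
  simp

lemma Gs_insertNth {k : ℕ} (j : Fin (k + 1)) (β : ZMod W) (c : Fin k → ZMod W) :
    Gs (Fin.insertNth j β c : Fin (k + 1) → ZMod W) =
      Gs (Fin.cons β c : Fin (k + 1) → ZMod W) := by
  ext x
  rw [mem_Gs_insertNth, mem_Gs_cons]

lemma C18_nonneg (W : ℕ) : 0 ≤ C18 W := by
  unfold C18
  positivity

lemma w2_nonneg {K : ℕ} (n m : ZMod W) (b : Fin K → ZMod W) : 0 ≤ w2 n m b := by
  classical
  unfold w2
  split_ifs <;> positivity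

/-- the weights of one coordinate -/
lemma w2_insert {k : ℕ} (j : Fin (k + 1)) (n m : ZMod W) (c : Fin k → ZMod W) (hn : n ∈ Gs c)
    (hm : m ∈ Gs c) (β : ZMod W) :
    w2 n m (Fin.insertNth j β c : Fin (k + 1) → ZMod W) =
      if β ∈ Us n m then (((Gs (Fin.cons β c : Fin (k + 1) → ZMod W)).card : ℝ) ^ 2)⁻¹ else 0 := by
  classical
  unfold w2
  simp only [Gs_insertNth, mem_Gs_cons, hn, hm, and_true, mem_Us]

lemma w2_insert_zero {k : ℕ} (j : Fin (k + 1)) (n m : ZMod W) (c : Fin k → ZMod W)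
    (h : ¬ (n ∈ Gs c ∧ m ∈ Gs c)) (β : ZMod W) :
    w2 n m (Fin.insertNth j β c : Fin (k + 1) → ZMod W) = 0 := by
  classical
  unfold w2
  rw [if_neg]
  rw [mem_Gs_insertNth, mem_Gs_insertNth]
  tauto

lemma cs_abs {ι : Type*} (s : Finset ι) (w η : ι → ℝ) (C δ N : ℝ) (hw : ∀ i ∈ s, 0 ≤ w i)
    (hC : 0 ≤ C) (hδ : 0 ≤ δ) (hN : N * ∑ i ∈ s, w i ^ 2 ≤ C * (∑ i ∈ s, w i) ^ 2)
    (h2 : ∑ i ∈ s, η i ^ 2 ≤ δ ^ 2 * N) :
    ∑ i ∈ s, w i * η i ≤ δ * √C * ∑ i ∈ s, w i := by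
  have hsw : 0 ≤ ∑ i ∈ s, w i := Finset.sum_nonneg hw
  have hsw2 : 0 ≤ ∑ i ∈ s, w i ^ 2 := Finset.sum_nonneg fun i _ => sq_nonneg _
  have h5 : (∑ i ∈ s, w i * η i) ^ 2 ≤ (δ * √C * ∑ i ∈ s, w i) ^ 2 := by
    calc (∑ i ∈ s, w i * η i) ^ 2
        ≤ (∑ i ∈ s, w i ^ 2) * ∑ i ∈ s, η i ^ 2 := Finset.sum_mul_sq_le_sq_mul_sq s w η
      _ ≤ (∑ i ∈ s, w i ^ 2) * (δ ^ 2 * N) := mul_le_mul_of_nonneg_left h2 hsw2
      _ = δ ^ 2 * (N * ∑ i ∈ s, w i ^ 2) := by ring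
      _ ≤ δ ^ 2 * (C * (∑ i ∈ s, w i) ^ 2) := mul_le_mul_of_nonneg_left hN (sq_nonneg _)
      _ = (δ * √C * ∑ i ∈ s, w i) ^ 2 := by
        rw [mul_pow, mul_pow, Real.sq_sqrt hC]
        ring
  have h6 : 0 ≤ δ * √C * ∑ i ∈ s, w i := mul_nonneg (mul_nonneg hδ (Real.sqrt_nonneg _)) hsw
  exact (abs_le_of_sq_le_sq' h5 h6).2

/-- one coordinate -/
lemma one_coord (hC : S_CRT') (hW : Squarefree W) {k : ℕ} (j : Fin (k + 1)) (n m : ZMod W)
    (c : Fin k → ZMod W) (hn : n ∈ Gs c) (hm : m ∈ Gs c) (η : ZMod W → ℝ) (δ : ℝ) (hδ : 0 ≤ δ)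
    (h2 : ∑ β ∈ Us n m, η β ^ 2 ≤ δ ^ 2 * (Us n m).card) :
    ∑ β, w2 n m (Fin.insertNth j β c : Fin (k + 1) → ZMod W) * η β ≤
      δ * √(C18 W) * ∑ β, w2 n m (Fin.insertNth j β c : Fin (k + 1) → ZMod W) := by
  classical
  have e0 : ∑ β, w2 n m (Fin.insertNth j β c : Fin (k + 1) → ZMod W) * η β =
      ∑ β ∈ Us n m, (((Gs (Fin.cons β c : Fin (k + 1) → ZMod W)).card : ℝ) ^ 2)⁻¹ * η β := by
    simp only [w2_insert j n m c hn hm, ite_mul, zero_mul]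
    rw [Finset.sum_ite_mem, Finset.univ_inter]
  have e1 : ∑ β, w2 n m (Fin.insertNth j β c : Fin (k + 1) → ZMod W) =
      ∑ β ∈ Us n m, (((Gs (Fin.cons β c : Fin (k + 1) → ZMod W)).card : ℝ) ^ 2)⁻¹ := by
    simp only [w2_insert j n m c hn hm]
    rw [Finset.sum_ite_mem, Finset.univ_inter]
  rw [e0, e1]
  have hc := hC W hW k c n m hn hm
  refine cs_abs (Us n m) _ η (C18 W) δ (Us n m).card (fun β _ => by positivity) (C18_nonneg W) hδ
    ?_ h2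
  have e2 : ∀ β : ZMod W, ((((Gs (Fin.cons β c : Fin (k + 1) → ZMod W)).card : ℝ) ^ 2)⁻¹) ^ 2 =
      (((Gs (Fin.cons β c : Fin (k + 1) → ZMod W)).card : ℝ) ^ 4)⁻¹ := by
    intro β
    rw [inv_pow, ← pow_mul]
  simp only [e2]
  exact hc

/-- the partial products -/
noncomputable def VT {K : ℕ} (n m : ZMod W) (η : ZMod W → ℝ) (T : Finset (Fin K)) : ℝ :=
  ∑ b : Fin K → ZMod W, w2 n m b * ∏ i ∈ T, (1 + η (b i))

lemma VT_insert (hC : S_CRT') (hW : Squarefree W) {K : ℕ} (n m : ZMod W) (η : ZMod W → ℝ) (δ : ℝ)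
    (hδ : 0 ≤ δ) (h1 : ∀ β ∈ Us n m, -1 ≤ η β)
    (h2 : ∑ β ∈ Us n m, η β ^ 2 ≤ δ ^ 2 * (Us n m).card) (T : Finset (Fin K)) (j : Fin K)
    (hj : j ∉ T) : VT n m η (insert j T) ≤ (1 + δ * √(C18 W)) * VT n m η T := by
  classical
  obtain ⟨k, rfl⟩ : ∃ k, K = k + 1 := ⟨K - 1, by have := j.pos; omega⟩
  have e : ∀ F : (Fin (k + 1) → ZMod W) → ℝ, ∑ b, F b =
      ∑ c : Fin k → ZMod W, ∑ β : ZMod W, F (Fin.insertNth j β c) := by
    intro F
    rw [← (Fin.insertNthEquiv (fun _ => ZMod W) j).sum_comp F, Fintype.sum_prod_type,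
      Finset.sum_comm]
    rfl
  unfold VT
  rw [e, e, Finset.mul_sum]
  refine Finset.sum_le_sum fun c _ => ?_
  have hP : ∀ β : ZMod W, ∏ i ∈ T, (1 + η ((Fin.insertNth j β c : Fin (k + 1) → ZMod W) i)) =
      ∏ i ∈ T, (1 + η ((Fin.insertNth j 0 c : Fin (k + 1) → ZMod W) i)) := by
    intro β
    refine Finset.prod_congr rfl fun i hi => ?_
    have hij : i ≠ j := fun h => hj (h ▸ hi)
    obtain ⟨i', rfl⟩ := Fin.exists_succAbove_eq hij
    simp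
  set P := ∏ i ∈ T, (1 + η ((Fin.insertNth j 0 c : Fin (k + 1) → ZMod W) i)) with hPdef
  have e2 : ∀ β : ZMod W, ∏ i ∈ insert j T,
      (1 + η ((Fin.insertNth j β c : Fin (k + 1) → ZMod W) i)) = (1 + η β) * P := by
    intro β
    rw [Finset.prod_insert hj, hP, Fin.insertNth_apply_same]
  simp only [e2, hP]
  by_cases h : n ∈ Gs c ∧ m ∈ Gs c
  · have hP0 : 0 ≤ P := by
      rw [hPdef]
      refine Finset.prod_nonneg fun i hi => ?_
      have hij : i ≠ j := fun h => hj (h ▸ hi)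
      obtain ⟨i', rfl⟩ := Fin.exists_succAbove_eq hij
      rw [Fin.insertNth_apply_succAbove]
      have := h1 (c i') (mem_Us.2 ⟨mem_Gs.1 h.1 i', mem_Gs.1 h.2 i'⟩)
      linarith
    have h3 := one_coord hC hW j n m c h.1 h.2 η δ hδ h2
    have e3 : ∀ β : ZMod W, w2 n m (Fin.insertNth j β c : Fin (k + 1) → ZMod W) *
        ((1 + η β) * P) = P * (w2 n m (Fin.insertNth j β c : Fin (k + 1) → ZMod W) +
          w2 n m (Fin.insertNth j β c : Fin (k + 1) → ZMod W) * η β) := fun β => by ring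
    have e4 : ∀ β : ZMod W, w2 n m (Fin.insertNth j β c : Fin (k + 1) → ZMod W) * P =
        P * w2 n m (Fin.insertNth j β c : Fin (k + 1) → ZMod W) := fun β => by ring
    simp only [e3, e4, ← Finset.mul_sum, Finset.sum_add_distrib]
    nlinarith [mul_le_mul_of_nonneg_left h3 hP0]
  · simp only [w2_insert_zero j n m c h, zero_mul, Finset.sum_const_zero, mul_zero, le_refl]

lemma VT_le (hC : S_CRT') (hW : Squarefree W) {K : ℕ} (n m : ZMod W) (η : ZMod W → ℝ) (δ : ℝ)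
    (hδ : 0 ≤ δ) (h1 : ∀ β ∈ Us n m, -1 ≤ η β)
    (h2 : ∑ β ∈ Us n m, η β ^ 2 ≤ δ ^ 2 * (Us n m).card) (T : Finset (Fin K)) :
    VT n m η T ≤ (1 + δ * √(C18 W)) ^ T.card * ∑ b : Fin K → ZMod W, w2 n m b := by
  classical
  induction T using Finset.induction_on with
  | empty => simp [VT]
  | insert j T hj ih =>
    rw [Finset.card_insert_of_notMem hj, pow_succ']
    have hpos : 0 ≤ 1 + δ * √(C18 W) := by positivity
    calc VT n m η (insert j T) ≤ (1 + δ * √(C18 W)) * VT n m η T :=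
          VT_insert hC hW n m η δ hδ h1 h2 T j hj
      _ ≤ (1 + δ * √(C18 W)) * ((1 + δ * √(C18 W)) ^ T.card *
          ∑ b : Fin K → ZMod W, w2 n m b) := mul_le_mul_of_nonneg_left ih hpos
      _ = _ := by ring

end

theorem t_LAW2 : S_LAW2 := by
  intro hC W _ hW K n m η δ hδ h1 h2
  have := VT_le hC hW n m η δ hδ h1 h2 (Finset.univ : Finset (Fin K))
  rw [Finset.card_univ, Fintype.card_fin] at this
  exact this

end Pool.Agent.Q58.SZ
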