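import Pool.Agent.Q58.SZ.Law2
import Pool.Agent.Q58.SZ.Cls

/-!
# Project SZ, job MOM2: the second moment
-/

set_option autoImplicit false
set_option linter.unusedSectionVars false

namespace Pool.Agent.Q58.SZ

open Finset Filter Pool.Agent.Q145.SZ

lemma wt_nonneg (u : ℕ) : 0 ≤ wt u := by
  unfold wt
  split_ifs
  · exact Real.log_natCast_nonneg u
  · exact le_rfl

section

variable {W : ℕ} [NeZero W]

lemma B2_nonneg (X n m : ℕ) (β : ZMod W) : 0 ≤ B2 X n m β := by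
  unfold B2
  exact div_nonneg (Finset.sum_nonneg fun s _ => mul_nonneg (wt_nonneg _) (wt_nonneg _))
    (Nat.cast_nonneg _)

lemma one_le_vv : 1 ≤ vv W := by
  unfold vv
  have h1 : 0 < Nat.totient W := Nat.totient_pos.2 (Nat.pos_of_ne_zero (NeZero.ne W))
  rw [le_div_iff₀ (by exact_mod_cast h1), one_mul]
  exact_mod_cast Nat.totient_le W

/-- the second moment over a product of classes -/
lemma sq_sum {K : ℕ} (X : ℕ) (b : Fin K → ZMod W) :
    (∑ s ∈ Sb X b, wc X s ^ 2) / (Sb X b).card =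
      ∑ n ∈ Ioc X (2 * X), ∑ m ∈ Ioc X (2 * X), ∏ i, B2 X n m (b i) := by
  have h1 : ∀ s : Fin K → ℕ, wc X s ^ 2 = ∑ n ∈ Ioc X (2 * X), ∑ m ∈ Ioc X (2 * X),
      ∏ i, (wt (n + s i) * wt (m + s i)) := by
    intro s
    unfold wc
    rw [sq, Finset.sum_mul_sum]
    simp only [Finset.prod_mul_distrib]
  have h2 : ∑ s ∈ Sb X b, wc X s ^ 2 = ∑ n ∈ Ioc X (2 * X), ∑ m ∈ Ioc X (2 * X),
      ∏ i, ∑ t ∈ cls X (b i), wt (n + t) * wt (m + t) := by
    simp only [h1]
    rw [Finset.sum_comm]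
    refine Finset.sum_congr rfl fun n _ => ?_
    rw [Finset.sum_comm]
    refine Finset.sum_congr rfl fun m _ => ?_
    rw [Finset.prod_univ_sum]
    rfl
  rw [h2, Finset.sum_div]
  refine Finset.sum_congr rfl fun n _ => ?_
  rw [Finset.sum_div]
  refine Finset.sum_congr rfl fun m _ => ?_
  rw [card_Sb, ← Finset.prod_div_distrib]
  rfl

/-- the key identity -/
lemma term_eq {K : ℕ} {X : ℕ} (hX : 0 < X) {n m : ℕ} (b : Fin K → ZMod W)
    (h2' : ∀ β : ZMod W, β ∉ Us (n : ZMod W) (m : ZMod W) → B2 X n m β = 0) :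
    (∏ i, B2 X n m (b i)) / Mb X b ^ 2 = ((W : ℝ) / X) ^ 2 *
      (w2 (n : ZMod W) (m : ZMod W) b * ∏ i, (B2 X n m (b i) / vv W ^ 2)) := by
  classical
  by_cases h : (n : ZMod W) ∈ Gs b ∧ (m : ZMod W) ∈ Gs b
  · have hg : (0 : ℝ) < (Gs b).card := by
      exact_mod_cast Finset.card_pos.2 ⟨_, h.1⟩
    have hv : (0 : ℝ) < vv W := lt_of_lt_of_le one_pos one_le_vv
    have hW : (0 : ℝ) < W := by exact_mod_cast Nat.pos_of_ne_zero (NeZero.ne W)
    have hX' : (0 : ℝ) < X := by exact_mod_cast hX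
    have e1 : w2 (n : ZMod W) (m : ZMod W) b = (((Gs b).card : ℝ) ^ 2)⁻¹ := by
      unfold w2
      rw [if_pos h]
    rw [e1, Finset.prod_div_distrib]
    have e2 : ∏ _i : Fin K, vv W ^ 2 = (vv W ^ K) ^ 2 := by
      rw [Finset.prod_const, Finset.card_univ, Fintype.card_fin, ← pow_mul, ← pow_mul, mul_comm]
    rw [e2]
    unfold Mb
    field_simp
  · have e1 : w2 (n : ZMod W) (m : ZMod W) b = 0 := by
      unfold w2
      rw [if_neg h]
    have e2 : ∏ i, B2 X n m (b i) = 0 := by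
      have : ∃ i, b i ∉ Us (n : ZMod W) (m : ZMod W) := by
        by_contra hcon
        push Not at hcon
        refine h ⟨mem_Gs.2 fun i => (mem_Us.1 (hcon i)).1, mem_Gs.2 fun i => (mem_Us.1 (hcon i)).2⟩
      obtain ⟨i, hi⟩ := this
      exact Finset.prod_eq_zero (Finset.mem_univ i) (h2' _ hi)
    rw [e1, e2]
    simp

/-- the total weight -/
noncomputable def ws (K : ℕ) (c d : ZMod W) : ℝ := ∑ b : Fin K → ZMod W, w2 c d b

lemma ws_nonneg (K : ℕ) (c d : ZMod W) : 0 ≤ ws K c d :=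
  Finset.sum_nonneg fun b _ => w2_nonneg c d b

lemma w2_le_Ad {K : ℕ} (c d : ZMod W) (b : Fin K → ZMod W) [Decidable (b ∈ Ad W K)] :
    w2 c d b ≤ if b ∈ Ad W K then 1 else 0 := by
  classical
  unfold w2
  split_ifs with h1 h2 h2
  · have hg : (1 : ℝ) ≤ (Gs b).card := by
      exact_mod_cast Finset.card_pos.2 ⟨_, h1.1⟩
    rw [inv_le_one₀ (by positivity)]
    nlinarith
  · exfalso
    apply h2
    unfold Ad
    rw [Finset.mem_filter]
    exact ⟨Finset.mem_univ _, ⟨_, h1.1⟩⟩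
  · exact zero_le_one
  · exact le_rfl

lemma ws_le (K : ℕ) (c d : ZMod W) : ws K c d ≤ (Ad W K).card := by
  classical
  unfold ws
  refine (Finset.sum_le_sum fun b _ => w2_le_Ad c d b).trans ?_
  rw [Finset.sum_ite_mem, Finset.univ_inter]
  simp

lemma sum_ws (K : ℕ) : ∑ c : ZMod W, ∑ d : ZMod W, ws K c d = (Ad W K).card := by
  classical
  unfold ws
  have e1 : ∑ c : ZMod W, ∑ d : ZMod W, ∑ b : Fin K → ZMod W, w2 c d b =
      ∑ b : Fin K → ZMod W, ∑ c : ZMod W, ∑ d : ZMod W, w2 c d b := by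
    have : ∀ c : ZMod W, ∑ d : ZMod W, ∑ b : Fin K → ZMod W, w2 c d b =
        ∑ b : Fin K → ZMod W, ∑ d : ZMod W, w2 c d b := fun c => Finset.sum_comm
    simp only [this]
    exact Finset.sum_comm
  rw [e1]
  have e2 : ∀ b : Fin K → ZMod W, ∑ c : ZMod W, ∑ d : ZMod W, w2 c d b =
      if b ∈ Ad W K then 1 else 0 := by
    intro b
    have e3 : ∀ c d : ZMod W, w2 c d b = (if c ∈ Gs b then (1 : ℝ) else 0) *
        (if d ∈ Gs b then (1 : ℝ) else 0) * (((Gs b).card : ℝ) ^ 2)⁻¹ := by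
      intro c d
      unfold w2
      by_cases hc : c ∈ Gs b <;> by_cases hd : d ∈ Gs b <;> simp [hc, hd]
    simp only [e3, ← Finset.sum_mul, ← Finset.mul_sum]
    rw [Finset.sum_ite_mem, Finset.univ_inter, Finset.sum_const, nsmul_eq_mul, mul_one]
    unfold Ad
    simp only [Finset.mem_filter, Finset.mem_univ, true_and]
    by_cases h : (Gs b).Nonempty
    · rw [if_pos h]
      have hg : (0 : ℝ) < (Gs b).card := by exact_mod_cast Finset.card_pos.2 h
      field_simp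
    · rw [if_neg h]
      rw [Finset.not_nonempty_iff_eq_empty] at h
      rw [h]
      simp
  simp only [e2]
  rw [Finset.sum_ite_mem, Finset.univ_inter]
  simp

/-- the sum over the pairs in general position -/
lemma sum_pairs (X K : ℕ) (S : ℕ → ℕ → ℝ) (δ : ℝ)
    (hS : ∀ c d : ZMod W, ∑ n ∈ (Ioc X (2 * X)).filter (fun n : ℕ => (n : ZMod W) = c),
      ∑ m ∈ (Ioc X (2 * X)).filter (fun m : ℕ => (m : ZMod W) = d ∧ m ≠ n), S n m ^ K ≤
        ((X : ℝ) / W) ^ 2 * (1 + δ)) :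
    ∑ n ∈ Ioc X (2 * X), ∑ m ∈ (Ioc X (2 * X)).filter (fun m => m ≠ n),
      S n m ^ K * ws K (n : ZMod W) (m : ZMod W) ≤
        ((X : ℝ) / W) ^ 2 * (1 + δ) * (Ad W K).card := by
  classical
  have e1 : ∀ n : ℕ, ∑ m ∈ (Ioc X (2 * X)).filter (fun m => m ≠ n),
      S n m ^ K * ws K (n : ZMod W) (m : ZMod W) = ∑ d : ZMod W, ws K (n : ZMod W) d *
        ∑ m ∈ (Ioc X (2 * X)).filter (fun m : ℕ => (m : ZMod W) = d ∧ m ≠ n), S n m ^ K := by
    intro n
    rw [← Finset.sum_fiberwise ((Ioc X (2 * X)).filter (fun m => m ≠ n))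
      (fun m : ℕ => (m : ZMod W))]
    refine Finset.sum_congr rfl fun d _ => ?_
    rw [Finset.filter_filter, Finset.mul_sum]
    refine Finset.sum_congr ?_ fun m hm => ?_
    · ext m
      simp only [Finset.mem_filter]
      tauto
    · rw [Finset.mem_filter] at hm
      rw [hm.2.1, mul_comm]
  simp only [e1]
  rw [← Finset.sum_fiberwise (Ioc X (2 * X)) (fun n : ℕ => (n : ZMod W))]
  have e2 : ∀ c : ZMod W, ∑ n ∈ (Ioc X (2 * X)).filter (fun n : ℕ => (n : ZMod W) = c),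
      ∑ d : ZMod W, ws K (n : ZMod W) d *
        ∑ m ∈ (Ioc X (2 * X)).filter (fun m : ℕ => (m : ZMod W) = d ∧ m ≠ n), S n m ^ K =
      ∑ d : ZMod W, ws K c d *
        ∑ n ∈ (Ioc X (2 * X)).filter (fun n : ℕ => (n : ZMod W) = c),
          ∑ m ∈ (Ioc X (2 * X)).filter (fun m : ℕ => (m : ZMod W) = d ∧ m ≠ n), S n m ^ K := by
    intro c
    simp only [Finset.mul_sum]
    rw [Finset.sum_comm]
    refine Finset.sum_congr rfl fun d _ => Finset.sum_congr rfl fun n hn => ?_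
    rw [Finset.mem_filter] at hn
    rw [hn.2]
  simp only [e2]
  calc ∑ c : ZMod W, ∑ d : ZMod W, ws K c d *
        ∑ n ∈ (Ioc X (2 * X)).filter (fun n : ℕ => (n : ZMod W) = c),
          ∑ m ∈ (Ioc X (2 * X)).filter (fun m : ℕ => (m : ZMod W) = d ∧ m ≠ n), S n m ^ K
      ≤ ∑ c : ZMod W, ∑ d : ZMod W, ws K c d * (((X : ℝ) / W) ^ 2 * (1 + δ)) :=
        Finset.sum_le_sum fun c _ => Finset.sum_le_sum fun d _ =>
          mul_le_mul_of_nonneg_left (hS c d) (ws_nonneg K c d)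
    _ = ((X : ℝ) / W) ^ 2 * (1 + δ) * (Ad W K).card := by
      rw [← sum_ws (W := W) K]
      simp only [← Finset.sum_mul]
      ring

/-- generic bound of a product -/
lemma Q_le {K : ℕ} (X n m : ℕ) (c d : ZMod W) (D : ℝ)
    (hb : ∀ β : ZMod W, B2 X n m β / vv W ^ 2 ≤ D) :
    ∑ b : Fin K → ZMod W, w2 c d b * ∏ i, (B2 X n m (b i) / vv W ^ 2) ≤
      D ^ K * (Ad W K).card := by
  have h1 : ∀ b : Fin K → ZMod W, ∏ i, (B2 X n m (b i) / vv W ^ 2) ≤ D ^ K := by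
    intro b
    calc ∏ i, (B2 X n m (b i) / vv W ^ 2) ≤ ∏ _i : Fin K, D :=
          Finset.prod_le_prod (fun i _ => div_nonneg (B2_nonneg _ _ _ _) (sq_nonneg _))
            fun i _ => hb (b i)
      _ = D ^ K := by simp
  have hD : 0 ≤ D := le_trans (div_nonneg (B2_nonneg X n m 0) (sq_nonneg _)) (hb 0)
  calc ∑ b : Fin K → ZMod W, w2 c d b * ∏ i, (B2 X n m (b i) / vv W ^ 2)
      ≤ ∑ b : Fin K → ZMod W, w2 c d b * D ^ K :=
        Finset.sum_le_sum fun b _ => mul_le_mul_of_nonneg_left (h1 b) (w2_nonneg c d b)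
    _ = D ^ K * ws K c d := by
      rw [← Finset.sum_mul, mul_comm]
      rfl
    _ ≤ D ^ K * (Ad W K).card := mul_le_mul_of_nonneg_left (ws_le K c d) (pow_nonneg hD K)

/-- pairs in general position -/
lemma Q_le' (hL : S_LAW2') (hW : Squarefree W) {K : ℕ} (X n m : ℕ) (S ε₂ : ℝ) (hS : 0 < S)
    (hε : 0 ≤ ε₂)
    (h : ∑ β ∈ Us (n : ZMod W) (m : ZMod W), (B2 X n m β - vv W ^ 2 * S) ^ 2 ≤
      (ε₂ * vv W ^ 2 * S) ^ 2 * (Us (n : ZMod W) (m : ZMod W)).card) :
    ∑ b : Fin K → ZMod W, w2 (n : ZMod W) (m : ZMod W) b *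
      ∏ i, (B2 X n m (b i) / vv W ^ 2) ≤
      (1 + ε₂ * √(C18 W)) ^ K * (S ^ K * ws K (n : ZMod W) (m : ZMod W)) := by
  have hv : (0 : ℝ) < vv W := lt_of_lt_of_le one_pos one_le_vv
  have hvS : 0 < vv W ^ 2 * S := by positivity
  have h1 := hL W hW K (n : ZMod W) (m : ZMod W) (fun β => B2 X n m β / (vv W ^ 2 * S) - 1) ε₂ hε
    (fun β _ => by
      have : 0 ≤ B2 X n m β / (vv W ^ 2 * S) := div_nonneg (B2_nonneg _ _ _ _) hvS.le
      linarith) (by
      have e1 : ∀ β : ZMod W, (B2 X n m β / (vv W ^ 2 * S) - 1) ^ 2 =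
          (B2 X n m β - vv W ^ 2 * S) ^ 2 / (vv W ^ 2 * S) ^ 2 := by
        intro β
        rw [← div_pow]
        congr 1
        field_simp
      simp only [e1]
      rw [← Finset.sum_div, div_le_iff₀ (by positivity)]
      refine h.trans (le_of_eq ?_)
      ring)
  have e2 : ∀ b : Fin K → ZMod W, w2 (n : ZMod W) (m : ZMod W) b *
      ∏ i, (B2 X n m (b i) / vv W ^ 2) = S ^ K * (w2 (n : ZMod W) (m : ZMod W) b *
        ∏ i, (1 + (B2 X n m (b i) / (vv W ^ 2 * S) - 1))) := by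
    intro b
    have e3 : ∀ i, B2 X n m (b i) / vv W ^ 2 =
        S * (1 + (B2 X n m (b i) / (vv W ^ 2 * S) - 1)) := by
      intro i
      field_simp
      ring
    rw [Finset.prod_congr rfl fun i _ => e3 i, Finset.prod_mul_distrib, Finset.prod_const,
      Finset.card_univ, Fintype.card_fin]
    ring
  simp only [e2, ← Finset.mul_sum]
  calc S ^ K * ∑ b : Fin K → ZMod W, w2 (n : ZMod W) (m : ZMod W) b *
        ∏ i, (1 + (B2 X n m (b i) / (vv W ^ 2 * S) - 1))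
      ≤ S ^ K * ((1 + ε₂ * √(C18 W)) ^ K * ∑ b : Fin K → ZMod W,
        w2 (n : ZMod W) (m : ZMod W) b) := mul_le_mul_of_nonneg_left h1 (pow_nonneg hS.le K)
    _ = _ := by
      unfold ws
      ring

end

theorem t_MOM2 : S_MOM2 := by
  classical
  intro hL W _ X K ε₂ C₀ D₀ δ e₂ S E hW hWX hε hC₀ hD₀ hδ he₂ hS H2 H2' H3 H4 HS HE
  have hWp : 0 < W := Nat.pos_of_ne_zero (NeZero.ne W)
  have hXp : 0 < X := lt_of_lt_of_le hWp hWX
  have hWr : (0 : ℝ) < W := by exact_mod_cast hWp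
  have hXr : (0 : ℝ) < X := by exact_mod_cast hXp
  have hv : (1 : ℝ) ≤ vv W := one_le_vv
  have hv2 : (1 : ℝ) ≤ vv W ^ 2 := one_le_pow₀ hv
  set A : ℝ := ((Ad W K).card : ℝ) with hA
  have hA0 : 0 ≤ A := Nat.cast_nonneg _
  set r : ℝ := (1 + ε₂ * √(C18 W)) ^ K with hr
  have hr0 : 0 ≤ r := by rw [hr]; positivity
  set Q : ℕ → ℕ → ℝ := fun n m => ∑ b : Fin K → ZMod W, w2 (n : ZMod W) (m : ZMod W) b *
    ∏ i, (B2 X n m (b i) / vv W ^ 2) with hQ
  -- reduction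
  have h1 : ∑ b ∈ Ad W K, (∑ s ∈ Sb X b, (wc X s / Mb X b) ^ 2) / (Sb X b).card ≤
      ((W : ℝ) / X) ^ 2 * ∑ n ∈ Ioc X (2 * X), ∑ m ∈ Ioc X (2 * X), Q n m := by
    have e1 : ∀ b : Fin K → ZMod W, (∑ s ∈ Sb X b, (wc X s / Mb X b) ^ 2) / (Sb X b).card =
        ∑ n ∈ Ioc X (2 * X), ∑ m ∈ Ioc X (2 * X), (∏ i, B2 X n m (b i)) / Mb X b ^ 2 := by
      intro b
      simp only [div_pow, ← Finset.sum_div]
      rw [div_right_comm, sq_sum]
    have e2 : ∀ b : Fin K → ZMod W, ∑ n ∈ Ioc X (2 * X), ∑ m ∈ Ioc X (2 * X),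
        (∏ i, B2 X n m (b i)) / Mb X b ^ 2 = ∑ n ∈ Ioc X (2 * X), ∑ m ∈ Ioc X (2 * X),
        ((W : ℝ) / X) ^ 2 * (w2 (n : ZMod W) (m : ZMod W) b *
          ∏ i, (B2 X n m (b i) / vv W ^ 2)) := by
      intro b
      refine Finset.sum_congr rfl fun n hn => Finset.sum_congr rfl fun m hm => ?_
      exact term_eq hXp b (H2' n hn m hm)
    simp only [e1, e2]
    rw [Finset.sum_comm, Finset.mul_sum]
    refine Finset.sum_le_sum fun n _ => ?_
    rw [Finset.sum_comm, Finset.mul_sum]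
    refine Finset.sum_le_sum fun m _ => ?_
    rw [← Finset.mul_sum]
    refine mul_le_mul_of_nonneg_left ?_ (sq_nonneg _)
    refine Finset.sum_le_sum_of_subset_of_nonneg (Finset.subset_univ _) fun b _ _ => ?_
    exact mul_nonneg (w2_nonneg _ _ _) (Finset.prod_nonneg fun i _ =>
      div_nonneg (B2_nonneg _ _ _ _) (sq_nonneg _))
  -- bound of the terms
  have h2 : ∀ n ∈ Ioc X (2 * X), ∀ m ∈ Ioc X (2 * X), Q n m ≤
      (if m ≠ n then r * (S n m ^ K * ws K (n : ZMod W) (m : ZMod W)) else 0) +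
      ((if (n, m) ∈ E ∧ m ≠ n then C₀ ^ K * A * S n m ^ K else 0) +
        (if m = n then D₀ ^ K * A else 0)) := by
    intro n hn m hm
    have p1 : 0 ≤ r * (S n m ^ K * ws K (n : ZMod W) (m : ZMod W)) :=
      mul_nonneg hr0 (mul_nonneg (pow_nonneg (hS n m).le K) (ws_nonneg _ _ _))
    by_cases hnm : m = n
    · subst hnm
      rw [if_neg (by simp), if_neg (by simp), if_pos rfl, zero_add, zero_add]
      refine Q_le X m m _ _ D₀ fun β => ?_
      refine (div_le_self (B2_nonneg _ _ _ _) hv2).trans (H4 m hm β)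
    · rw [if_pos hnm, if_neg hnm, add_zero]
      by_cases hE : (n, m) ∈ E
      · rw [if_pos ⟨hE, hnm⟩]
        have := Q_le (K := K) X n m (n : ZMod W) (m : ZMod W) (C₀ * S n m) (fun β => by
          rw [div_le_iff₀ (by positivity)]
          refine (H3 n hn m hm (Ne.symm hnm) β).trans (le_of_eq ?_)
          ring)
        rw [mul_pow] at this
        have e : C₀ ^ K * S n m ^ K * ((Ad W K).card : ℝ) = C₀ ^ K * A * S n m ^ K := by
          rw [hA]
          ring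
        rw [e] at this
        linarith
      · rw [if_neg (by tauto), add_zero]
        exact Q_le' hL hW X n m (S n m) ε₂ (hS n m) hε (H2 n hn m hm (Ne.symm hnm) hE)
  -- the three sums
  have h3 : ∑ n ∈ Ioc X (2 * X), ∑ m ∈ Ioc X (2 * X), Q n m ≤
      r * (((X : ℝ) / W) ^ 2 * (1 + δ) * A) + (C₀ ^ K * A * (e₂ * (X : ℝ) ^ 2) +
        X * (D₀ ^ K * A)) := by
    refine (Finset.sum_le_sum fun n hn => Finset.sum_le_sum fun m hm => h2 n hn m hm).trans ?_
    simp only [Finset.sum_add_distrib]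
    refine add_le_add ?_ (add_le_add ?_ ?_)
    · have := sum_pairs (W := W) X K S δ HS
      have e1 : ∑ n ∈ Ioc X (2 * X), ∑ m ∈ Ioc X (2 * X),
          (if m ≠ n then r * (S n m ^ K * ws K (n : ZMod W) (m : ZMod W)) else 0) =
          r * ∑ n ∈ Ioc X (2 * X), ∑ m ∈ (Ioc X (2 * X)).filter (fun m => m ≠ n),
            S n m ^ K * ws K (n : ZMod W) (m : ZMod W) := by
        simp only [Finset.mul_sum, Finset.sum_filter, mul_ite, mul_zero]
      rw [e1]
      exact mul_le_mul_of_nonneg_left this hr0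
    · have e1 : ∑ n ∈ Ioc X (2 * X), ∑ m ∈ Ioc X (2 * X),
          (if (n, m) ∈ E ∧ m ≠ n then C₀ ^ K * A * S n m ^ K else 0) =
          C₀ ^ K * A * ∑ q ∈ E.filter (fun q => q.1 ∈ Ioc X (2 * X) ∧ q.2 ∈ Ioc X (2 * X) ∧
            q.1 ≠ q.2), S q.1 q.2 ^ K := by
        rw [← Finset.sum_product', Finset.mul_sum, ← Finset.sum_filter]
        refine Finset.sum_congr ?_ fun q _ => rfl
        ext q
        simp only [Finset.mem_filter, Finset.mem_product, Prod.mk.eta]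
        constructor
        · rintro ⟨⟨h1, h2⟩, h3, h4⟩
          exact ⟨h3, h1, h2, Ne.symm h4⟩
        · rintro ⟨h1, h2, h3, h4⟩
          exact ⟨⟨h2, h3⟩, h1, Ne.symm h4⟩
      rw [e1]
      exact mul_le_mul_of_nonneg_left HE (mul_nonneg (pow_nonneg hC₀ K) hA0)
    · have e1 : ∀ n ∈ Ioc X (2 * X), ∑ m ∈ Ioc X (2 * X),
          (if m = n then D₀ ^ K * A else 0) = D₀ ^ K * A := by
        intro n hn
        rw [Finset.sum_ite_eq' (Ioc X (2 * X)) n, if_pos hn]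
      rw [Finset.sum_congr rfl e1, Finset.sum_const, Nat.card_Ioc, nsmul_eq_mul]
      have : ((2 * X - X : ℕ) : ℝ) = X := by
        congr 1
        omega
      rw [this]
  refine (h1.trans (mul_le_mul_of_nonneg_left h3 (sq_nonneg _))).trans (le_of_eq ?_)
  field_simp
  ring

end Pool.Agent.Q58.SZ
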