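import Pool.Agent.Q58.SZ.Cls

/-!
# Project SZ, job TRANS: from the classes to all admissible tuples
-/

set_option autoImplicit false

namespace Pool.Agent.Q58.SZ

open Finset Filter Pool.Agent.Q145.SZ

lemma ratio_pow {Y : ℝ} {K : ℕ} (hY : 8 * ((K : ℝ) + 1) ≤ Y) : (Y + 1) ^ K ≤ 2 * (Y - 1) ^ K := by
  have hK : (0 : ℝ) ≤ K := Nat.cast_nonneg K
  have h1 : 0 < Y - 1 := by linarith
  have h2 : (Y + 1) / (Y - 1) ≤ Real.exp (2 / (Y - 1)) := by
    have : (Y + 1) / (Y - 1) = 2 / (Y - 1) + 1 := by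
      field_simp
      ring
    rw [this]
    exact Real.add_one_le_exp _
  have h3 : ((Y + 1) / (Y - 1)) ^ K ≤ 2 := by
    calc ((Y + 1) / (Y - 1)) ^ K ≤ Real.exp (2 / (Y - 1)) ^ K :=
          pow_le_pow_left₀ (div_nonneg (by linarith) h1.le) h2 K
      _ = Real.exp (K * (2 / (Y - 1))) := by rw [← Real.exp_nat_mul]
      _ ≤ Real.exp (1 / 2) := by
        apply Real.exp_le_exp.2
        rw [mul_div_assoc', div_le_iff₀ h1]
        linarith
      _ ≤ 2 := by
        have h4 := Real.exp_one_lt_d9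
        have h5 : Real.exp (1 / 2) ^ 2 = Real.exp 1 := by
          rw [← Real.exp_nat_mul]
          norm_num
        have h6 := Real.exp_pos (1 / 2)
        nlinarith
  rw [div_pow, div_le_iff₀ (by positivity)] at h3
  exact h3

open Classical in
/-- a sum over the admissible tuples -/
lemma sum_AT (hM : S_MBS) {z X K : ℕ} (hK : K ≤ z) (E : (Fin K → ℕ) → Prop) :
    (((AT X K).filter fun s => E s).card : ℝ) =
      ∑ b ∈ Ad (PW z) K, (((Sb X b).filter fun s => E s).card : ℝ) := by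
  rw [← Nat.cast_sum, ← Finset.card_biUnion]
  · congr 2
    ext s
    simp only [Finset.mem_filter, Finset.mem_biUnion, AT, Fintype.mem_piFinset, Finset.mem_Icc,
      Ad, Finset.mem_univ, true_and, mem_Sb]
    constructor
    · rintro ⟨⟨h1, h2⟩, h3⟩
      exact ⟨_, ((hM z X K s).2 hK).1 h2, ⟨h1, rfl⟩, h3⟩
    · rintro ⟨b, hb, ⟨h1, rfl⟩, h3⟩
      exact ⟨⟨h1, ((hM z X K s).2 hK).2 hb⟩, h3⟩
  · intro b _ b' _ hbb'
    rw [Function.onFun, Finset.disjoint_left]
    intro s hs hs'
    rw [Finset.mem_filter, mem_Sb] at hs hs'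
    exact hbb' (hs.1.2.symm.trans hs'.1.2)

theorem t_TRANS : S_TRANS := by
  classical
  intro hM z X K E η hK hX h
  have hW : (0 : ℝ) < PW z := by exact_mod_cast Nat.pos_of_ne_zero (NeZero.ne (PW z))
  have hY : 8 * ((K : ℝ) + 1) ≤ (X : ℝ) / PW z := by
    rw [le_div_iff₀ hW]
    exact_mod_cast hX
  have hWX : PW z ≤ X := by
    have h1 : 1 * PW z ≤ 8 * (K + 1) * PW z := Nat.mul_le_mul_right _ (by omega)
    omega
  set Y : ℝ := (X : ℝ) / PW z with hYdef
  have hratio := ratio_pow hY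
  have hK0 : (0 : ℝ) ≤ K := Nat.cast_nonneg K
  have hB0 : 0 < (Y + 1) ^ K := by
    have : 0 < Y + 1 := by linarith
    positivity
  have ha0 : 0 < (Y - 1) ^ K := by
    have : 0 < Y - 1 := by linarith
    positivity
  have h0 : 0 ≤ η * (Ad (PW z) K).card :=
    le_trans (Finset.sum_nonneg fun b _ => by positivity) h
  have h1 : (((AT X K).filter fun s => E s).card : ℝ) ≤ (Y + 1) ^ K * (η * (Ad (PW z) K).card) := by
    rw [sum_AT hM hK E]
    refine le_trans ?_ (mul_le_mul_of_nonneg_left h hB0.le)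
    rw [Finset.mul_sum]
    refine Finset.sum_le_sum fun b _ => ?_
    have hS := card_Sb_le (W := PW z) X b
    have hS' := le_card_Sb (W := PW z) X hWX b
    have hSpos : (0 : ℝ) < (Sb X b).card := lt_of_lt_of_le ha0 hS'
    rw [mul_div_assoc', le_div_iff₀ hSpos, mul_comm]
    exact mul_le_mul_of_nonneg_right hS (Nat.cast_nonneg _)
  have h2 : (Y - 1) ^ K * (Ad (PW z) K).card ≤ ((AT X K).card : ℝ) := by
    have e1 := sum_AT hM (X := X) hK (fun _ => True)
    simp only [Finset.filter_true] at e1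
    rw [e1]
    calc (Y - 1) ^ K * (Ad (PW z) K).card = ∑ _b ∈ Ad (PW z) K, (Y - 1) ^ K := by
          rw [Finset.sum_const, nsmul_eq_mul, mul_comm]
      _ ≤ ∑ b ∈ Ad (PW z) K, ((Sb X b).card : ℝ) :=
        Finset.sum_le_sum fun b _ => le_card_Sb (W := PW z) X hWX b
  by_cases hη : 0 ≤ η
  · calc (((AT X K).filter fun s => E s).card : ℝ)
        ≤ (Y + 1) ^ K * (η * (Ad (PW z) K).card) := h1
      _ ≤ 2 * (Y - 1) ^ K * (η * (Ad (PW z) K).card) := mul_le_mul_of_nonneg_right hratio h0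
      _ = 2 * η * ((Y - 1) ^ K * (Ad (PW z) K).card) := by ring
      _ ≤ 2 * η * (AT X K).card := mul_le_mul_of_nonneg_left h2 (by linarith)
  · push Not at hη
    have hAd : ((Ad (PW z) K).card : ℝ) = 0 := by
      have h3 : (0 : ℝ) ≤ (Ad (PW z) K).card := Nat.cast_nonneg _
      nlinarith
    have hAT : ((AT X K).card : ℝ) = 0 := by
      have e1 := sum_AT hM (X := X) hK (fun _ => True)
      simp only [Finset.filter_true] at e1
      rw [e1]
      have : Ad (PW z) K = ∅ := by
        rw [← Finset.card_eq_zero]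
        exact_mod_cast hAd
      rw [this, Finset.sum_empty]
    rw [hAT, mul_zero]
    have h4 : (((AT X K).filter fun s => E s).card : ℝ) ≤ (AT X K).card := by
      exact_mod_cast Finset.card_filter_le _ _
    linarith

end Pool.Agent.Q58.SZ
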